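import Pool.Agent.V5helper77.FM.Main

/-!
# The finite generation conjecture of Flach and Morin and systems of bilinear equations

For a fixed integer `n < 0` let `H i X = H^i(X_et, ℤ^c(n))` for the arithmetic schemes `X`.

Idea of the proof. By localization and the structure of the cohomology of `X × 𝔾_m` the schemes with
finitely generated groups are closed under closed-open decompositions and under passing from
`X × 𝔾_m` to `X`. Every algebra of finite type over `ℤ` has a presentation by relations which are sums of
at most three monomials; writing the monomials as products of the values of two proportional vectors
one obtains `X × 𝔾_m × 𝔾_m` as the difference of two systems of bilinear equations with at most three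
terms. In the other direction one uses alterations (de Jong) and transfer: the kernel of the pull-back
under a finite flat map is killed by the degree, and it is finitely generated since the groups with
finite coefficients are finite.
-/

set_option autoImplicit false

open CategoryTheory AlgebraicGeometry Pool.Agent.Y116.UV Pool.Agent.Q282.UZ
  Pool.Agent.V5helper77.FM

universe w

namespace Pool.Agent.Results.MP_c1eb4d_ag.BilinearSystems

/-- **The conjecture of Flach and Morin and three-term bilinear systems.** Let `n < 0`. The following are
equivalent:
(a) for all proper regular arithmetic schemes `X` the groups `H^i(X_et, ℤ^c(n))` are finitely generated for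
all `i ≤ -2n + 1`;
(b) the groups `H^i(Y_et, ℤ^c(n))` are finitely generated, for all `i`, for the closed subschemes `Y` of the
affine spaces over `ℤ` given by systems of bilinear equations `∑_{(i, j) ∈ E_l} x_i y_j = 0`, `l = 1, …, c`,
with at most three terms in every equation;
(c) the groups `H^i(X_et, ℤ^c(n))` are finitely generated, for all `i`, for all arithmetic schemes `X`. -/
theorem result (hA : Alterations fun X => ∀ x : X.left, IsRegularLocalRing (X.left.presheaf.stalk x))
    (n : ℤ) (_hn : n < 0) (H : ℤ → Sch ℤ → ModuleCat.{w} ℤ) (hH : IsEtaleMotivic n H) :
    ((∀ X : Sch ℤ, IsProperRegular X → FinGen H {i | i ≤ -2 * n + 1} X) ↔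
        ForThreeTerms (FinGen H Set.univ)) ∧
      ((∀ X : Sch ℤ, FT True X → FinGen H Set.univ X) ↔ ForThreeTerms (FinGen H Set.univ)) :=
  main hA hH

end Pool.Agent.Results.MP_c1eb4d_ag.BilinearSystems
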