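import Pool.Agent.V5helper92.BK.Published

/-!
# Finite generation of étale motivic cohomology for schemes built from known cases over finite fields

Let `k` be a finite field and `S` a class of schemes over `k`. The schemes which are *built from schemes of
dimension at most `d` and from `S`* form the smallest class `BuiltFrom k d S` of schemes over `k` which
contains `S` and the separated schemes of finite type of dimension at most `d` and which is stable under
isomorphisms, closed-open decompositions (two of the three schemes are in the class, then so is the
third), affine bundles of Jouanolou's type, the passage from `X × 𝔾_m` to `X`, products of affine schemes,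
and the passage from `Y` to `X` for finite free coverings `Y → X` of affine schemes.

Let `S` be a class of schemes whose weight complexes are built from Chow motives of abelian type, for
example the class of the abelian varieties. We show that the groups `H^i(X_et, ℤ^c(n))`, `n < 0`, are
finitely generated for ALL smooth proper schemes `X` over finite fields which are built from curves and
from `S`, of any dimension, and that the Chow motives of these `X` are of abelian type; and for all
arithmetic schemes which are obtained from these and from the arithmetic schemes of dimension at most one
by closed-open decompositions and products with affine lines. So for a proper regular arithmetic scheme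
the conjecture of Flach and Morin holds if it is obtained in this way. The class `BuiltFrom k 1 S` contains
the preimages `F⁻¹(Z)`, `Z` a closed subscheme of dimension at most one of `𝔸^m`, `F = f_1 × ⋯ × f_m` with
polynomials `f_i` in disjoint sets of variables (`Preimages`).

If moreover the groups `H^i(X_et, ℤ^c(n))` are finitely generated for all separated schemes of finite type
over finite fields with weight complexes of abelian type (`AbelianComplexes`, this follows from known
theorems), then the same is true with ALL separated schemes of finite type in `BuiltFrom k 1 (S k)`,
singular or not, proper or not, in place of the smooth proper ones.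

Idea of the proof. Weight complexes (Gillet and Soulé) behave well under all operations in the definition
of the class, so the weight complex of `X` is in the thick subcategory generated by the Chow motives of
abelian type. If `X` is smooth and proper it follows that the Chow motive of `X` is of abelian type, and
the finite generation is known in this case (Soulé, Geisser).
-/

set_option autoImplicit false

open CategoryTheory AlgebraicGeometry Pool.Agent.Y116.UV Pool.Agent.V5helper77.GW
  Pool.Agent.V5helper48.WC Pool.Agent.V5helper94.SV Pool.Agent.V5helper92.WC
  Pool.Agent.V5helper92.BK

universe w

namespace Pool.Agent.Results.MP_c1eb4d_ag.BuiltFromKnownCases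

/-- **Finite generation of étale motivic cohomology for schemes built from known cases.** Let `S k` be, for
all finite fields `k`, a class of schemes over `k` with weight complexes of abelian type.

(1) For all smooth proper schemes `X` over a finite field `k` which are built from curves and from `S k`
the Chow motive of `X` is of abelian type, and the groups `H^i(X_et, ℤ^c(n))` are finitely generated for
all `n < 0` and all `i`.
(2) The groups `H^i(X_et, ℤ^c(n))` are finitely generated for all `n < 0` and all `i`, for all arithmetic
schemes `X` obtained from these and from the arithmetic schemes of dimension at most one by closed-open
decompositions and products with affine lines.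
(3) For every field `k` and every class `S` the class of the schemes which are built from curves and from
`S` is closed under preimages: it contains `F⁻¹(Z)` for all closed subschemes `Z` of dimension at most one
of affine spaces `𝔸^m` and all maps `F = f_1 × ⋯ × f_m`, where the `f_i` are polynomials in disjoint sets
of variables which are homogeneous of degree `≠ 0` for some integer weights of the variables, and the
hypersurfaces `f_i = 1` are in the class.
(4) If the groups `H^i(X_et, ℤ^c(n))`, `n < 0`, are finitely generated for all separated schemes of finite
type over finite fields with weight complexes of abelian type, then (2) holds also with ALL separated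
schemes of finite type which are built from curves and from `S k` in place of the smooth proper ones. -/
theorem result {M : Theories} {H : ℤ → ℤ → Sch ℤ → ModuleCat.{w} ℤ} (h : IsPublished M H)
    (S : ∀ (k : Type) [Field k] [Finite k], Sch k → Prop)
    (hS : ∀ (k : Type) [Field k] [Finite k] (X : Sch k), S k X → IsAbelian M k X) :
    (∀ (k : Type) [Field k] [Finite k] (X : Sch k), IsSmProper X → BuiltFrom k 1 (S k) X →
      LowChow (M.T k) (M.D k) 1 ((M.T k).h X) ∧
      ∀ n < 0, ∀ i, Module.Finite ℤ (H n i (res k X))) ∧
    (∀ X : Sch ℤ, Obtained (fun k _ _ X => IsSmProper X ∧ BuiltFrom k 1 (S k) X) X →
      ∀ n < 0, ∀ i, Module.Finite ℤ (H n i X)) ∧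
    (∀ (k : Type) [Field k] (S : Sch k → Prop), Preimages k 1 (BuiltFrom k 1 S)) ∧
    (AbelianComplexes M H → ∀ X : Sch ℤ, Obtained (fun k => BuiltFrom k 1 (S k)) X →
      ∀ n < 0, ∀ i, Module.Finite ℤ (H n i X)) := by
  have h1 : ∀ (k : Type) [Field k] [Finite k] (X : Sch k), IsSmProper X → BuiltFrom k 1 (S k) X →
      ∀ n < 0, ∀ i, Module.Finite ℤ (H n i (res k X)) :=
    fun k _ _ X hs hX => h.smooth k X hs (h.motive k (hS k) hs hX)
  exact ⟨fun k _ _ X hs hX => ⟨h.motive k (hS k) hs hX, h1 k X hs hX⟩,
    fun X hX => finite_obtained_of h.cycle (fun k _ _ X _ hb => h1 k X hb.1 hb.2) hX,
    fun k _ _ => preimages_built le_rfl,
    fun ha X hX => finite_obtained_of h.cycle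
      (fun k _ _ X hft hb => ha k X hft (h.built k (hS k) hb)) hX⟩

end Pool.Agent.Results.MP_c1eb4d_ag.BuiltFromKnownCases
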