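import Pool.Agent.V5helper92.BK.Defs
import Pool.Agent.V5helper52.PT.Open
import Pool.Agent.V5helper52.VM.Main

/-!
# Finite generation of étale motivic cohomology for varieties with few terms over finite fields

Let `F = (F_1, …, F_r)` be polynomials in `N` variables with *few terms* (`HasFewTerms k 1 F`): coefficients in a
`k`-algebra `E` of dimension at most one, and the ideal `(F)` is generated by the equations of Vandermonde type
`∑_{m ∈ S, p(m) = β} b(m)^{d(β) - i} c(m)^i a(m) x^m`, `0 ≤ i ≤ d(β)`, with an affinely independent set `S` of
exponents, `b(m), c(m) ∈ k` and `a(m) ∈ E` (for instance `∑ a_m x_m^{e_m}` with coefficients which are functions on a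
curve, or the intersections `∑_j q_j^i x_j^e = 0`, `0 ≤ i ≤ d`, of Fermat hypersurfaces), or `E = k`, `r ≤ 2` and
together the `F_i` have at most four monomials, or `E = k` and the exponents of all `F_i` are in a plane.

We show that `V(F)` is in the class `Built k 1` of the schemes which are built from curves. So the conjecture of Flach
and Morin holds for all smooth proper varieties over finite fields, of any dimension, which have a filtration by closed
subschemes whose successive differences are isomorphic to some `V(F)` or to complements of some `V(F)`. For instance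
a smooth projective variety in `ℙ^N` given by homogeneous polynomials with few terms has the strata
`x_0 = ⋯ = x_{i-1} = 0`, `x_i = 1`, given by polynomials with few terms in fewer variables. With a general form of the
theorems of Soulé and Geisser (`AbelianComplexes`) the groups `H^i(X_et, ℤ^c(n))`, `n < 0`, are finitely generated also
for all `V(F)` over finite fields and for their complements, of any dimension and with any singularities.

`Theories`, `res`, `IsAbelian` and the class `Obtained` are defined in `Pool/Agent/V5helper92/BK/Defs.lean`.
-/

set_option autoImplicit false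

open CategoryTheory AlgebraicGeometry MvPolynomial Pool.Agent.Y116.UV Pool.Agent.V5helper77.GW
  Pool.Agent.V5helper48.WC Pool.Agent.V5helper94.SV Pool.Agent.V5helper52.VM
open Pool.Agent.V5helper52.TR (IsCycleCohomology FinGen loc_finGen)
open Pool.Agent.V5helper92.BK (Theories res IsAbelian Obtained finite_obtained isAbelian_dim cls_abelian)

universe w

namespace Pool.Agent.Results.MP_c1eb4d_ag.FewTerms

/-- The known properties:

* `deJong`: de Jong's theorem on alterations;
* `chow`, `transfer`, `tensor`: the properties of weight complexes (Gillet and Soulé);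
* `cycle`: the properties of the groups `H n i X = H^i(X_et, ℤ^c(n))`, see `IsCycleCohomology`;
* `abelian` (Soulé, Geisser): for smooth proper schemes over finite fields with Chow motives of abelian
  type, that is in the class generated by the motives of curves, the groups `H^i(X_et, ℤ^c(n))`, `n < 0`,
  are finitely generated. -/
structure IsKnown (M : Theories) (H : ℤ → ℤ → Sch ℤ → ModuleCat.{w} ℤ) : Prop where
  deJong : ∀ (k : Type) [Field k] [Finite k], DeJong k
  chow : ∀ (k : Type) [Field k] [Finite k], IsChowTheory IsSmProper (M.T k)
  transfer : ∀ (k : Type) [Field k] [Finite k], HasTransfer (M.T k)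
  tensor : ∀ (k : Type) [Field k] [Finite k], IsTensorChow (M.D k)
  cycle : IsCycleCohomology H
  abelian : ∀ (k : Type) [Field k] [Finite k] (X : Sch k), IsSmProper X →
    LowChow (M.T k) (M.D k) 1 ((M.T k).h X) → ∀ n < 0, ∀ i, Module.Finite ℤ (H n i (res k X))

/-- The general form of `IsKnown.abelian`: for all separated schemes of finite type over finite fields with weight
complexes of abelian type the groups `H^i(X_et, ℤ^c(n))`, `n < 0`, are finitely generated. It follows from known
theorems (Soulé, Kimura, Clozel, Deligne, Geisser), see the comment on `abelian` in `Pool/Agent/V5helper92/BK/Defs.lean`. -/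
def AbelianComplexes (M : Theories) (H : ℤ → ℤ → Sch ℤ → ModuleCat.{w} ℤ) : Prop :=
  ∀ (k : Type) [Field k] [Finite k] (X : Sch k), FT True X → IsAbelian M k X →
    ∀ n < 0, ∀ i, Module.Finite ℤ (H n i (res k X))

/-- `V(F)`: the closed subscheme `F_1 = ⋯ = F_r = 0` of the affine space `𝔸^N` over `Spec E`. -/
noncomputable def locus (k : Type) [Field k] {E : Type} [CommRing E] [Algebra k E] {N r : ℕ}
    (F : Fin r → MvPolynomial (Fin N) E) : Sch k :=
  aff k (MvPolynomial (Fin N) E ⧸ Ideal.span (Set.range F))

/-- `U` is isomorphic to the complement of `V(F)` in `𝔸^N` over `Spec E`. -/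
def IsComplement (k : Type) [Field k] {E : Type} [CommRing E] [Algebra k E] {N r : ℕ}
    (F : Fin r → MvPolynomial (Fin N) E) (U : Sch k) : Prop :=
  ∃ j : U ⟶ aff k (MvPolynomial (Fin N) E), IsOpenImmersion j.left ∧
    Set.range j.left = {x : PrimeSpectrum (MvPolynomial (Fin N) E) | ∃ i, F i ∉ x.asIdeal}

/-- The smallest class of separated schemes of finite type over the field `k` which contains the `V(F)` with few terms
and their complements, which is stable under isomorphisms, and which contains, if `Z` is a closed subscheme of `X` and
`U` its complement, all three schemes `Z`, `X`, `U` if it contains two of them. -/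
inductive FewTermsClass (k : Type) [Field k] (n : ℕ) : Sch k → Prop
  | locus {E : Type} [CommRing E] [Algebra k E] [Algebra.FiniteType k E] {N r : ℕ}
      (F : Fin r → MvPolynomial (Fin N) E) (hF : HasFewTerms k n F) : FewTermsClass k n (locus k F)
  | compl {E : Type} [CommRing E] [Algebra k E] [Algebra.FiniteType k E] {N r : ℕ}
      (F : Fin r → MvPolynomial (Fin N) E) (hF : HasFewTerms k n F) {U : Sch k} (hU : IsComplement k F U) :
      FewTermsClass k n U
  | iso {X Y : Sch k} (hX : FT True X) (e : Nonempty (X ≅ Y)) (h : FewTermsClass k n X) : FewTermsClass k n Y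
  | total {Z X U : Sch k} (i : Z ⟶ X) (j : U ⟶ X) (hX : FT True X) (ht : IsTriple i j)
      (hZ : FewTermsClass k n Z) (hU : FewTermsClass k n U) : FewTermsClass k n X
  | opened {Z X U : Sch k} (i : Z ⟶ X) (j : U ⟶ X) (hX : FT True X) (ht : IsTriple i j)
      (hZ : FewTermsClass k n Z) (h : FewTermsClass k n X) : FewTermsClass k n U
  | closed {Z X U : Sch k} (i : Z ⟶ X) (j : U ⟶ X) (hX : FT True X) (ht : IsTriple i j)
      (h : FewTermsClass k n X) (hU : FewTermsClass k n U) : FewTermsClass k n Z

theorem few_le {k : Type} [Field k] {n : ℕ} {P : Sch k → Prop} (hP : Pool.Agent.V5helper52.SF.Cls True P)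
    (hd : ∀ (A : Type) [CommRing A] [Algebra k A] [Algebra.FiniteType k A], ringKrullDim A ≤ n →
      P (aff k A)) {X : Sch k} (h : FewTermsClass k n X) : P X := by
  induction h with
  | locus F hF => exact p_main hP hd F hF
  | @compl E _ _ _ N r F hF U hU =>
    obtain ⟨j, hj, hr⟩ := hU
    have hft : Algebra.FiniteType k (MvPolynomial (Fin N) E) :=
      Algebra.FiniteType.trans (S := E) inferInstance inferInstance
    exact hP.opened _ j (ft_aff True) (Pool.Agent.V5helper52.PT.triple_fam F U j hj hr) (p_main hP hd F hF)
      (p_space hP hd F hF)
  | iso hX e _ ih => exact hP.iso hX e ih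
  | total i j hX ht _ _ h1 h2 => exact hP.total i j hX ht h1 h2
  | opened i j hX ht _ _ h1 h2 => exact hP.opened i j hX ht h1 h2
  | closed i j hX ht _ _ h1 h2 => exact hP.closed i j hX ht h1 h2

/-- **Finite generation of étale motivic cohomology for varieties with few terms.** (1) For every field `k` and every
`n ≥ 1` all schemes of `FewTermsClass k n`, in particular all `V(F)` with few terms and their complements, are built
from schemes of dimension at most `n`. (2) The groups `H^i(X_et, ℤ^c(n))` are finitely generated for all `n < 0` and all
`i`, for all smooth proper schemes `X` over finite fields `k` in `FewTermsClass k 1`, of any dimension; (3) and for all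
arithmetic schemes obtained from these and from the arithmetic schemes of dimension at most one by closed-open
decompositions and products with affine lines. (4) With the general form `AbelianComplexes` of the theorems of Soulé
and Geisser this holds for all separated schemes `X` of finite type over finite fields `k` in `FewTermsClass k 1`, in
particular for all `V(F)` with few terms and their complements, and for all arithmetic schemes obtained from these. -/
theorem result {M : Theories} {H : ℤ → ℤ → Sch ℤ → ModuleCat.{w} ℤ} (h : IsKnown M H) :
    (∀ (k : Type) [Field k] (n : ℕ), 1 ≤ n → ∀ X : Sch k, FewTermsClass k n X → Built k n X) ∧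
    (∀ (k : Type) [Field k] [Finite k] (X : Sch k), IsSmProper X → FewTermsClass k 1 X →
      ∀ n < 0, ∀ i, Module.Finite ℤ (H n i (res k X))) ∧
    (∀ X : Sch ℤ, Obtained (fun k _ _ X => IsSmProper X ∧ FewTermsClass k 1 X) X →
      ∀ n < 0, ∀ i, Module.Finite ℤ (H n i X)) ∧
    (AbelianComplexes M H →
      (∀ (k : Type) [Field k] [Finite k] (X : Sch k), FT True X → FewTermsClass k 1 X →
        ∀ n < 0, ∀ i, Module.Finite ℤ (H n i (res k X))) ∧
      ∀ X : Sch ℤ, Obtained (fun k _ _ => FewTermsClass k 1) X → ∀ n < 0, ∀ i, Module.Finite ℤ (H n i X)) := by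
  have key : ∀ (k : Type) [Field k] [Finite k] (X : Sch k), IsSmProper X → FewTermsClass k 1 X →
      ∀ n < 0, ∀ i, Module.Finite ℤ (H n i (res k X)) := by
    intro k _ _ X hX hb
    exact h.abelian k X hX ((lowChow_built (h.deJong k) (h.chow k) (h.transfer k) (h.tensor k)
      le_rfl).2 X hX (few_le (cls_built le_rfl) (fun _ _ _ _ hA => built_dim hA) hb))
  refine ⟨fun k _ n hn X hX => few_le (cls_built hn) (fun _ _ _ _ hA => built_dim hA) hX, key,
    fun X hX => ?_, fun hA => ?_⟩
  · have hL := loc_finGen h.cycle (n := -1) (by norm_num)
    have : FinGen H (-1) X := by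
      induction hX with
      | finite k hX hb => exact fun n hn i => key k _ hb.1 hb.2 n (by omega) i
      | dimOne hX hd => exact fun n hn i => h.cycle.dimOne _ hX hd n (by omega) i
      | iso hX e _ ih => exact hL.iso hX e ih
      | total i j hX ht _ _ h1 h2 => exact hL.total i j hX ht h1 h2
      | opened i j hX ht _ _ h1 h2 => exact hL.opened i j hX ht h1 h2
      | closed i j hX ht _ _ h1 h2 => exact hL.closed i j hX ht h1 h2
      | line A _ ih => exact hL.line A ih
    exact fun n hn i => this n (by omega) i
  · have h' : Pool.Agent.V5helper92.BK.IsKnown M H :=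
      ⟨h.deJong, h.chow, h.transfer, h.tensor, h.cycle, hA⟩
    have key2 : ∀ (k : Type) [Field k] [Finite k] (X : Sch k), FewTermsClass k 1 X → IsAbelian M k X := by
      intro k _ _ X hb
      refine few_le (cls_abelian h' k) (fun A _ _ _ hA => ?_) hb
      refine isAbelian_dim h' k _ (ft_aff True) ?_
      rw [Pool.Agent.Z125.UN.topDim_aff]
      exact_mod_cast hA
    exact ⟨fun k _ _ X hX hb => hA k X hX (key2 k X hb), fun X hX => finite_obtained h' key2 hX⟩

end Pool.Agent.Results.MP_c1eb4d_ag.FewTerms
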