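import Pool.Agent.V5helper52.TR.ZC

/-!
# Finite generation of étale motivic cohomology and actions of split tori

Let `X` be an arithmetic scheme which is built, by closed-open decompositions (two out of three), from
arithmetic schemes with a finite atlas of actions of split tori of absolute complexity at most `m`. We
deduce the finite generation of the groups `H^i(X_et, ℤ^c(n))`, `n < 0`, `i ∈ ℤ`, from that for the
affine integral arithmetic schemes of dimension at most `m`. It is known for `m = 1`: so the
conjecture of Flach and Morin holds for the schemes of this class with `m = 1`, of any dimension.

Proof. By noetherian induction over the homogeneous ideals (closed subschemes which are stable under the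
torus) we can assume that `X = Spec A` with `A` a graded domain, and replace it by a stable open
subscheme. If a product of homogeneous generators is inverted, then `A` is generated by homogeneous
units, so it is a ring of Laurent polynomials over its part of degree zero. This is a finitely
generated ring of invariant rational functions, so its dimension is at most the complexity.
Stable open subschemes are glued by means of closed-open decompositions.
-/

set_option autoImplicit false

open CategoryTheory AlgebraicGeometry Pool.Agent.Y116.UV Pool.Agent.V5helper52.TR

universe w

namespace Pool.Agent.Results.MP_c1eb4d_ag.TorusActions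

variable {H : ℤ → ℤ → Sch ℤ → ModuleCat.{w} ℤ}

/-- **Finite generation of étale motivic cohomology and actions of split tori.** Let `n < 0`, and let
`m ≤ 1`, or let `m` be such that for all domains `C` of finite type over `ℤ` of Krull dimension at most
`m` the groups `H^i(Spec C, ℤ^c(n'))`, `n' ≤ n`, `i ∈ ℤ`, are finitely generated. Let `X` be an
arithmetic scheme which is built by closed-open decompositions from arithmetic schemes covered by
finitely many open subschemes `U_i`, each of which is an open subscheme of an affine scheme `Spec A_i`
of finite type over `ℤ` with an action of a split torus (a grading of `A_i` by `ℤ ^ r`) of absolute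
complexity at most `m`, such that all `U_i ∩ U_l` are stable open subschemes of `Spec A_i`. Then the
groups `H^i(X_et, ℤ^c(n))` are finitely generated for all `i`. -/
theorem result (hH : IsCycleCohomology H) (n : ℤ) (hn : n < 0) (m : ℕ)
    (hm : m ≤ 1 ∨ ∀ (C : Type) [CommRing C] [IsDomain C] [Algebra ℤ C] [Algebra.FiniteType ℤ C],
      ringKrullDim C ≤ m → FinGen H n (aff ℤ C))
    (X : Sch ℤ) (hX : Built m X) : ∀ i, Module.Finite ℤ (H n i X) := by
  have hP := loc_finGen hH hn
  have hm' : ∀ (C : Type) [CommRing C] [IsDomain C] [Algebra ℤ C] [Algebra.FiniteType ℤ C],
      ringKrullDim C ≤ m → FinGen H n (aff ℤ C) := by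
    intro C _ _ _ _ hC
    rcases hm with hm | hm
    · intro n' hn' i
      refine hH.dimOne _ (ft_aff True) ?_ n' (by omega) i
      rw [topDim_aff']
      exact hC.trans (by exact_mod_cast hm)
    · exact hm C hC
  exact p_built hP hm' hX n le_rfl

end Pool.Agent.Results.MP_c1eb4d_ag.TorusActions
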